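import Pool.Agent.Helper40.SQC.GD

/-!
# Packet SQC-GE (MP_bb32d1_al, stage C): the generators on `V* (x) Z(lam)` in the basis
`F^a (phi_j (x) 1)`
-/

set_option autoImplicit false
set_option linter.unusedSectionVars false

namespace Pool.Agent.Helper95.SQC

noncomputable section

open Matrix Pool.Agent.Helper19.SQ Pool.Agent.Helper34.SQ Pool.Agent.Helper41.SQ
  Pool.Agent.Helper4.SQ Pool.Agent.Helper41.SQC
open Pool.Agent.Helper40.SQC (IX mul_bdg wz_zX qz_one)

section

variable {N l : ℕ} [NeZero l] {q : ℂ} {B : Type} [CommRing B] [Algebra ℂ B]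

theorem mul_offe (G : Matrix (IX N l) (IX N l) B) (k : ℕ) (hk : k + 1 < N + 1)
    (x : IX N l) (j : Fin (N + 1)) (a : EX N l) :
    (G * offe N l q B k) x (j, a)
      = if (j : ℕ) = k then G x (⟨k + 1, hk⟩, a) * algebraMap ℂ B (-q) else 0 := by
  rw [Matrix.mul_apply]
  split_ifs with hj
  · rw [Finset.sum_eq_single ((⟨k + 1, hk⟩, a) : IX N l)]
    · simp only [offe, Matrix.of_apply, hj, and_self, if_true]
    · intro y _ hy
      have : ¬ ((y.1 : ℕ) = k + 1 ∧ (j : ℕ) = k ∧ y.2 = a) := by
        rintro ⟨h1, -, h2⟩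
        exact hy (Prod.ext (Fin.ext h1) h2)
      simp only [offe, Matrix.of_apply, if_neg this, mul_zero]
    · intro h
      exact absurd (Finset.mem_univ _) h
  · refine Finset.sum_eq_zero fun y _ => ?_
    have : ¬ ((y.1 : ℕ) = k + 1 ∧ (j : ℕ) = k ∧ y.2 = a) := fun h => hj h.2.1
    simp only [offe, Matrix.of_apply, if_neg this, mul_zero]

theorem mul_Ge (X : Matrix (IX N l) (IX N l) B) (t' : ℕ → B) (lam : Fin (N + 1) → ZMod l)
    (x : IX N l) (j : Fin (N + 1)) (a : EX N l) :
    (X * Ge q t' lam) x (j, a) = (X * mon N q (wzF q t' lam) a.1) x (j, zX N l) := by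
  rw [Matrix.mul_apply, Matrix.mul_apply]
  rfl

theorem lx_subE (lam : Fin (N + 1) → ZMod l) (j : Fin (N + 1)) (m : ℕ) (hm : m ≤ N) :
    lx (subE lam j) m = lx lam m - if (j : ℕ) = m then 1 else 0 := by
  have h1 : m < N + 1 := Nat.lt_succ_of_le hm
  rw [lx, lx, dif_pos h1, dif_pos h1, subE]
  congr 1
  by_cases h : (j : ℕ) = m
  · rw [if_pos h, if_pos (Fin.ext h.symm)]
  · rw [if_neg h, if_neg (fun h2 => h (congrArg Fin.val h2).symm)]

/-- the eigenvalue of `K_m` on `phi_j (x) 1`. -/
def kap (q : ℂ) (B : Type) [CommRing B] [Algebra ℂ B] (lam : Fin (N + 1) → ZMod l)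
    (j : Fin (N + 1)) (m : ℕ) : B :=
  if m ≤ N then algebraMap ℂ B (qz q (lx (subE lam j) m)) else 1

theorem qz_sub_one (P : Par N l q) (c : ZMod l) : qz q (c - 1) = qz q c * q⁻¹ := by
  have h0 := P.prim.pow_eq_one
  have h1 : qz q (c - 1) * qz q (1 : ZMod l) = qz q c := by rw [← qz_add h0, sub_add_cancel]
  rw [qz_one P.h3] at h1
  have hq : q ≠ 0 := by
    rintro rfl
    have hl := P.h3
    rw [zero_pow (by omega)] at h0
    exact zero_ne_one h0
  rw [← h1, mul_assoc, mul_inv_cancel₀ hq, mul_one]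

/-- multiplication by `wzK` from the right on the column `(j, zX)`. -/
theorem mul_wzK (P : Par N l q) (Y : Matrix (IX N l) (IX N l) B) (lam : Fin (N + 1) → ZMod l)
    (m : ℕ) (x : IX N l) (j : Fin (N + 1)) :
    (Y * wzK q B lam m) x (j, zX N l) = kap q B lam j m * Y x (j, zX N l) := by
  have hent : ∀ y : IX N l, wzK q B lam m y (j, zX N l)
      = if y = (j, zX N l) then kap q B lam j m else 0 := by
    rintro ⟨i, b⟩
    rw [wzK, Matrix.comp_apply]
    simp only [eK, Matrix.of_apply]
    by_cases hij : i = j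
    · subst hij
      rw [if_pos rfl, Matrix.smul_apply]
      by_cases hm : m ≤ N
      · rw [zK, if_pos hm, kap, if_pos hm]
        by_cases hb : b = zX N l
        · subst hb
          rw [if_pos rfl, Matrix.diagonal_apply_eq, wz_zX, zpow_zero, mul_one, lx_subE _ _ _ hm]
          by_cases hi : (i : ℕ) = m
          · rw [if_pos hi, if_pos hi, qz_sub_one P, mul_comm, map_mul, Algebra.smul_def]
          · rw [if_neg hi, if_neg hi, sub_zero, one_smul]
        · rw [Matrix.diagonal_apply_ne _ hb, smul_zero, if_neg]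
          intro h
          exact hb (congrArg Prod.snd h)
      · rw [zK, if_neg hm, kap, if_neg hm]
        have hi : (i : ℕ) ≠ m := by
          have := i.2
          omega
        rw [if_neg hi, one_smul]
        by_cases hb : b = zX N l
        · subst hb
          rw [if_pos rfl, Matrix.one_apply_eq]
        · rw [Matrix.one_apply_ne hb, if_neg]
          intro h
          exact hb (congrArg Prod.snd h)
    · rw [if_neg hij, if_neg, Matrix.zero_apply]
      intro h
      exact hij (congrArg Prod.fst h)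
  rw [Matrix.mul_apply, Finset.sum_eq_single (j, zX N l)]
  · rw [hent, if_pos rfl, mul_comm]
  · intro y _ hy
    rw [hent, if_neg hy, mul_zero]
  · intro h
    exact absurd (Finset.mem_univ _) h

theorem mul_wzK_pow (P : Par N l q) (Y : Matrix (IX N l) (IX N l) B)
    (lam : Fin (N + 1) → ZMod l) (m : ℕ) (x : IX N l) (j : Fin (N + 1)) (r : ℕ) :
    (Y * wzK q B lam m ^ r) x (j, zX N l) = kap q B lam j m ^ r * Y x (j, zX N l) := by
  induction r with
  | zero => rw [pow_zero, pow_zero, mul_one, one_mul]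
  | succ r ih =>
    rw [pow_succ (wzK q B lam m), ← mul_assoc Y, mul_wzK P, ih, pow_succ]
    ring

theorem mul_kk (P : Par N l q) (Y : Matrix (IX N l) (IX N l) B) (lam : Fin (N + 1) → ZMod l)
    (m p : ℕ) (hm : m ≤ N) (hp : p ≤ N) (x : IX N l) (j : Fin (N + 1)) :
    (Y * kk l (wzK q B lam) m p) x (j, zX N l)
      = algebraMap ℂ B (qz q (lx (subE lam j) m - lx (subE lam j) p)) * Y x (j, zX N l) := by
  rw [kk, ki, ← mul_assoc Y, mul_wzK_pow P, mul_wzK P, ← mul_assoc]
  congr 1
  rw [kap, kap, if_pos hm, if_pos hp, ← map_pow, ← map_mul]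
  congr 1
  have h0 := P.prim.pow_eq_one
  have hl : 1 ≤ l := by have := P.h3; omega
  have h1 : qz q (lx (subE lam j) m - lx (subE lam j) p) * qz q (lx (subE lam j) p)
      = qz q (lx (subE lam j) m) := by rw [← qz_add h0, sub_add_cancel]
  have h2 : qz q (lx (subE lam j) p) ^ (l - 1) * qz q (lx (subE lam j) p) = 1 := by
    rw [← pow_succ, Nat.sub_add_cancel hl, qz_pow_l h0]
  have hne := qz_ne_zero h0 (lx (subE lam j) p)
  apply mul_right_cancel₀ hne
  rw [h1, mul_right_comm, h2, one_mul]

/-- multiplication by `wzE` from the right on the column `(j, zX)`. -/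
theorem mul_wzE (V : VD N l q) (t t' : ℕ → B) (lam : Fin (N + 1) → ZMod l) (k : ℕ)
    (hk : k + 1 < N + 1)
    (hz : zE V t t' lam k *ᵥ Pi.single (zX N l) 1 = 0)
    (Y : Matrix (IX N l) (IX N l) B) (x : IX N l) (j : Fin (N + 1)) :
    (Y * wzE V t t' lam k) x (j, zX N l)
      = if (j : ℕ) = k then Y x (⟨k + 1, hk⟩, zX N l) * algebraMap ℂ B (-q) else 0 := by
  have hz' : ∀ b, zE V t t' lam k b (zX N l) = 0 := by
    intro b
    have := congrFun hz b
    rwa [Matrix.mulVec_single_one] at this
  have hent : ∀ y : IX N l, wzE V t t' lam k y (j, zX N l)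
      = if y = (⟨k + 1, hk⟩, zX N l) ∧ (j : ℕ) = k then algebraMap ℂ B (-q) else 0 := by
    rintro ⟨i, b⟩
    rw [wzE, Matrix.comp_apply]
    simp only [eE, Matrix.of_apply, Matrix.add_apply]
    have e1 : (if i = j then q ^ (-pr i k) • zE V t t' lam k else 0) b (zX N l) = 0 := by
      split_ifs
      · rw [Matrix.smul_apply, hz', smul_zero]
      · rfl
    rw [e1, zero_add]
    by_cases h : (i : ℕ) = k + 1 ∧ (j : ℕ) = k
    · rw [if_pos h]
      by_cases hb : b = zX N l
      · subst hb
        rw [Matrix.smul_apply, Matrix.one_apply_eq, if_pos ⟨Prod.ext (Fin.ext h.1) rfl, h.2⟩,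
          Algebra.smul_def, mul_one]
      · rw [Matrix.smul_apply, Matrix.one_apply_ne hb, smul_zero, if_neg]
        intro h2
        exact hb (congrArg Prod.snd h2.1)
    · rw [if_neg h, if_neg, Matrix.zero_apply]
      intro h2
      exact h ⟨congrArg Fin.val (congrArg Prod.fst h2.1), h2.2⟩
  rw [Matrix.mul_apply]
  split_ifs with hj
  · rw [Finset.sum_eq_single (⟨k + 1, hk⟩, zX N l)]
    · rw [hent, if_pos ⟨rfl, hj⟩]
    · intro y _ hy
      rw [hent, if_neg (fun h => hy h.1), mul_zero]
    · intro h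
      exact absurd (Finset.mem_univ _) h
  · refine Finset.sum_eq_zero fun y _ => ?_
    rw [hent, if_neg (fun h => hj h.2), mul_zero]

/-- the family of the matrices `wzE`, `wzF`, `wzK`. -/
theorem wz_fam (h1 : S_ZREP) (h2 : S_CTT) (D : Dl N l q) (P : Par N l q) (V : VD N l q)
    (t t' : ℕ → B) (ht : ∀ i, t i * t' i = 1) (lam : Fin (N + 1) → ZMod l) :
    GlT N l q (fun i => algebraMap B (Matrix (IX N l) (IX N l) B) (t i))
      (fun i => algebraMap B (Matrix (IX N l) (IX N l) B) (t' i))
      (wzE V t t' lam) (wzF q t' lam) (wzK q B lam) := by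
  have h := (h2 _ N l q _ _ _ _ _ P (h1 N l q D P V B t t' ht lam).1).2
  have e : ∀ b : B, (Matrix.compAlgEquiv (Fin (N + 1)) (EX N l) B ℂ).toAlgHom
      (Matrix.diagonal fun _ => algebraMap B (Matrix (EX N l) (EX N l) B) b)
      = algebraMap B (Matrix (IX N l) (IX N l) B) b := by
    intro b
    exact Matrix.comp_diagonal_diagonal _
  have h3 := h.map (Matrix.compAlgEquiv (Fin (N + 1)) (EX N l) B ℂ).toAlgHom
    (fun i x => by rw [e]; exact Algebra.commutes _ _)
    (fun i x => by rw [e]; exact Algebra.commutes _ _)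
  simp only [e] at h3
  exact h3

end

theorem c_ge (h1 : S_ZREP) (h2 : S_CTT) (h3 : S_FM) (h4 : S_KM) : S_GE := by
  intro N l _ q D P V B _ _ t t' ht lam k
  have hf := wz_fam h1 h2 D P V t t' ht lam
  obtain ⟨-, -, hz, -, -⟩ := h1 N l q D P V B t t' ht lam
  refine ⟨?_, ?_, ?_⟩
  · ext x ⟨j, a⟩
    by_cases hk : k < N
    · rw [mul_Ge, mul_add, Matrix.add_apply, mul_bdg, mul_offe _ k (by omega),
        V.com _ _ _ _ _ _ hf k hk a, Matrix.sub_apply, Matrix.add_apply,
        mul_wzE V t t' lam k (by omega) (hz k), Matrix.sum_apply, Matrix.sum_apply]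
      have e1 : ∀ b, (V.P k b a • (algebraMap B (Matrix (IX N l) (IX N l) B) (t k)
          * (mon N q (wzF q t' lam) b.1 * kk l (wzK q B lam) k (k + 1)))) x (j, zX N l)
          = Ge q t' lam x (j, b) * (algebraMap ℂ B (qz q (lx (subE lam j) k
            - lx (subE lam j) (k + 1))) * t k * algebraMap ℂ B (V.P k b a)) := by
        intro b
        rw [Matrix.smul_apply, ← Algebra.smul_def (t k), Matrix.smul_apply,
          mul_kk P _ lam k (k + 1) hk.le hk, Algebra.smul_def, smul_eq_mul]
        change _ = mon N q (wzF q t' lam) b.1 x (j, zX N l) * _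
        ring
      have e2 : ∀ b, (V.Q k b a • (algebraMap B (Matrix (IX N l) (IX N l) B) (t' k)
          * (mon N q (wzF q t' lam) b.1 * kk l (wzK q B lam) (k + 1) k))) x (j, zX N l)
          = Ge q t' lam x (j, b) * (algebraMap ℂ B (qz q (lx (subE lam j) (k + 1)
            - lx (subE lam j) k)) * t' k * algebraMap ℂ B (V.Q k b a)) := by
        intro b
        rw [Matrix.smul_apply, ← Algebra.smul_def (t' k), Matrix.smul_apply,
          mul_kk P _ lam (k + 1) k hk hk.le, Algebra.smul_def, smul_eq_mul]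
        change _ = mon N q (wzF q t' lam) b.1 x (j, zX N l) * _
        ring
      rw [Finset.sum_congr rfl fun b _ => e1 b, Finset.sum_congr rfl fun b _ => e2 b,
        add_sub_assoc, ← Finset.sum_sub_distrib, add_comm]
      congr 1
      refine Finset.sum_congr rfl fun b _ => ?_
      rw [← mul_sub]
      congr 1
      simp only [zE, if_pos hk, Matrix.sub_apply, Matrix.smul_apply, Matrix.map_apply,
        smul_eq_mul]
    · have h5 : wzE V t t' lam k = 0 := hf.E_out k (not_lt.mp hk)
      have h6 : ∀ mu : Fin (N + 1) → ZMod l, zE V t t' mu k = 0 := fun mu => by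
        rw [zE, if_neg hk]
      have h7 : offe N l q B k = 0 := by
        ext y z
        rw [offe, Matrix.of_apply, if_neg, Matrix.zero_apply]
        rintro ⟨h, -, -⟩
        have := y.1.2
        omega
      have h8 : bdg (fun j => zE V t t' (subE lam j) k) = 0 := by
        ext y z
        simp only [bdg, Matrix.of_apply, h6, Matrix.zero_apply, ite_self]
      rw [h5, h7, h8, add_zero, zero_mul, mul_zero]
  · ext x ⟨j, a⟩
    rw [mul_Ge, mul_bdg, h3.1 _ N l q _ P hf.sF hf.F_out hf.pF k a, Matrix.sum_apply]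
    refine Finset.sum_congr rfl fun b _ => ?_
    rw [Matrix.smul_apply, Algebra.smul_def, mul_comm]
    rfl
  · ext x ⟨j, a⟩
    rw [mul_Ge, mul_bdg, h4 _ N l q _ _ _ _ _ P hf k a, Matrix.smul_apply, mul_wzK P,
      Finset.sum_eq_single a]
    · change _ = mon N q (wzF q t' lam) a.1 x (j, zX N l) * _
      by_cases hk : k ≤ N
      · rw [zK, if_pos hk, kap, if_pos hk, Matrix.diagonal_apply_eq, map_mul,
          Algebra.smul_def]
        ring
      · have h9 : ∀ m, m < N → pr k m = 0 := by
          intro m hm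
          rw [pr, if_neg (by omega), if_neg (by omega)]
        have h10 : wz N a.1 k = 0 := by
          unfold wz
          rw [neg_eq_zero]
          refine Finset.sum_eq_zero fun m hm => ?_
          rw [h9 m (Finset.mem_range.mp hm), zero_mul]
        rw [zK, if_neg hk, kap, if_neg hk, h10, zpow_zero, one_smul, one_mul,
          Matrix.one_apply_eq, mul_one]
    · intro b _ hb
      by_cases hk : k ≤ N
      · rw [zK, if_pos hk, Matrix.diagonal_apply_ne _ hb, mul_zero]
      · rw [zK, if_neg hk, Matrix.one_apply_ne hb, mul_zero]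
    · intro h
      exact absurd (Finset.mem_univ _) h

end

end Pool.Agent.Helper95.SQC
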